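import Pool.Agent.H84.B.TargetsM

set_option autoImplicit false

/-!
Module C0 of MP_02e9fb_an: limits of measures on the Cantor space, the ring of rationals with
denominator prime to `p`, exhausting sequences.
-/

open Filter Topology MeasureTheory

namespace Pool.Agent.H65.BE

open Pool.Agent.H84.B

/-- a set depending on finitely many coordinates is a preimage under restriction. -/
lemma dep_eq {I : Type} (s : Finset I) (C : Set (I → Bool))
    (h : ∀ a b : I → Bool, (∀ i ∈ s, a i = b i) → (a ∈ C ↔ b ∈ C)) :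
    ∃ S : Set (s → Bool), C = (fun (a : I → Bool) (i : s) => a i) ⁻¹' S := by
  refine ⟨(fun (a : I → Bool) (i : s) => a i) '' C, ?_⟩
  ext a
  constructor
  · intro ha; exact ⟨a, ha, rfl⟩
  · rintro ⟨b, hb, hab⟩
    exact (h b a fun i hi => congrFun hab ⟨i, hi⟩).1 hb

lemma dep_clopen {I : Type} (s : Finset I) (C : Set (I → Bool))
    (h : ∀ a b : I → Bool, (∀ i ∈ s, a i = b i) → (a ∈ C ↔ b ∈ C)) : IsClopen C := by
  obtain ⟨S, rfl⟩ := dep_eq s C h
  have hc : Continuous (fun (a : I → Bool) (i : s) => a i) :=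
    continuous_pi fun i => continuous_apply _
  exact (isClopen_discrete S).preimage hc

theorem lim : T_lim := by
  intro I _ μ hμ
  let P : ℕ → ProbabilityMeasure (I → Bool) := fun n => ⟨μ n, hμ n⟩
  let U : Ultrafilter ℕ := Ultrafilter.of atTop
  have hU : (U : Filter ℕ) ≤ atTop := Ultrafilter.of_le atTop
  have hlim : Tendsto P U (𝓝 (U.map P).lim) := (U.map P).le_nhds_lim
  refine ⟨((U.map P).lim : Measure (I → Bool)), inferInstance, U, hU, ?_⟩
  intro s C h
  have hC := dep_clopen s C h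
  refine ⟨hC.2.measurableSet, ?_⟩
  refine ProbabilityMeasure.tendsto_measure_of_null_frontier_of_tendsto' hlim ?_
  rw [hC.frontier_eq, measure_empty]

theorem cylext : T_cylext := by
  intro I _ μ ν hμ hν h
  refine ext_of_generate_finite (measurableCylinders fun _ : I => Bool)
    generateFrom_measurableCylinders.symm isPiSystem_measurableCylinders ?_ (by simp)
  intro t ht
  obtain ⟨s, S, _, rfl⟩ := (mem_measurableCylinders t).1 ht
  refine h s _ fun a b hab => ?_
  rw [mem_cylinder, mem_cylinder]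
  have : s.restrict a = s.restrict b := by
    funext i; exact hab i i.2
  rw [this]

theorem exh : T_Exh := by
  intro p _ Λ _ _ ρ
  have hne : Nonempty {b : Λ // ρ b = 1} := ⟨⟨1, map_one ρ⟩⟩
  obtain ⟨e, he⟩ := exists_surjective_nat {b : Λ // ρ b = 1}
  refine ⟨fun l => (e (Nat.unpair l).1 : Λ), fun l => (e (Nat.unpair l).1).2, ?_⟩
  intro b hb n
  obtain ⟨i, hi⟩ := he ⟨b, hb⟩
  refine ⟨Nat.pair i n, Nat.right_le_pair i n, ?_⟩
  simp [Nat.unpair_pair, hi]

theorem zp : T_Zp := by
  intro p hp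
  let L : Subring ℚ := (PadicInt.subring p).comap (Rat.castHom ℚ_[p])
  have hmem : ∀ x : ℚ, x ∈ L ↔ ‖(x : ℚ_[p])‖ ≤ 1 := fun x => Iff.rfl
  let φ : L →+* ℤ_[p] :=
    { toFun := fun x => ⟨((x : ℚ) : ℚ_[p]), (hmem x).1 x.2⟩
      map_one' := by apply Subtype.ext; simp
      map_zero' := by apply Subtype.ext; simp
      map_add' := by intro x y; apply Subtype.ext; simp
      map_mul' := by intro x y; apply Subtype.ext; simp }
  let ρ : L →+* ZMod p := (PadicInt.toZMod).comp φ
  let D : ℕ → ℕ := fun R => ∏ j ∈ (Finset.range (R + 1)).filter (fun j => ¬ p ∣ j), j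
  have hpp : p.Prime := hp.out
  have hp1 : p - 1 ≠ 0 := by have := hpp.two_le; omega
  refine ⟨L, inferInstance, inferInstance, inferInstance, ρ, fun R => D R ^ (p - 1), ?_, ?_, ?_⟩
  · intro R
    have h1 : ((D R : ℕ) : ZMod p) ≠ 0 := by
      rw [Ne, ZMod.natCast_eq_zero_iff, hpp.prime.dvd_finsetProd_iff]
      rintro ⟨j, hj, hpj⟩
      exact (Finset.mem_filter.1 hj).2 hpj
    push_cast
    exact ZMod.pow_card_sub_one_eq_one h1
  · intro u
    filter_upwards [eventually_ge_atTop (u : ℚ).den] with R hR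
    have hden : ¬ p ∣ (u : ℚ).den := by
      intro h
      have h2 := PadicInt.isUnit_den (u : ℚ) ((hmem _).1 u.2)
      rw [PadicInt.isUnit_iff] at h2
      have h3 : ‖(((u : ℚ).den : ℤ) : ℤ_[p])‖ < 1 :=
        (PadicInt.norm_int_lt_one_iff_dvd _).2 (by exact_mod_cast h)
      rw [Int.cast_natCast, h2] at h3
      exact lt_irrefl _ h3
    have h1 : (u : ℚ).den ∣ D R ^ (p - 1) := by
      refine dvd_trans ?_ (dvd_pow_self _ hp1)
      refine Finset.dvd_prod_of_mem _ ?_
      rw [Finset.mem_filter, Finset.mem_range]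
      exact ⟨by omega, hden⟩
    obtain ⟨c, hc⟩ := h1
    refine ⟨c * (u : ℚ).num, ?_⟩
    apply Subtype.ext
    have h2 : (u : ℚ) * (u : ℚ).den = (u : ℚ).num := Rat.mul_den_eq_num _
    rw [hc]
    push_cast
    rw [← h2]
    ring
  · intro k hk
    have h0 : (k : ℚ) ≠ 0 := by
      intro h
      apply hk
      have : k = 0 := by exact_mod_cast h
      rw [this]; simp
    have h1 : ‖((k : ℚ) : ℚ_[p])‖ = 1 := by
      rw [Rat.cast_intCast, Padic.norm_intCast_eq_one_iff]
      rw [isCoprime_comm, (Nat.prime_iff_prime_int.1 hpp).coprime_iff_not_dvd]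
      intro h; exact hk ((ZMod.intCast_zmod_eq_zero_iff_dvd k p).2 h)
    have h2 : (k : ℚ)⁻¹ ∈ L := by
      rw [hmem, Rat.cast_inv, norm_inv, h1]; simp
    rw [isUnit_iff_exists_inv]
    refine ⟨⟨(k : ℚ)⁻¹, h2⟩, ?_⟩
    apply Subtype.ext
    push_cast
    exact mul_inv_cancel₀ h0

end Pool.Agent.H65.BE
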