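import Pool.Agent.H84.B.Targets

set_option autoImplicit false

/-!
Module STR of MP_02e9fb_an: the structure theorem.
-/

open scoped ComplexConjugate InnerProductSpace
open Filter Topology MeasureTheory

namespace Pool.Agent.H65.BE

open Pool.Agent.H84.B

theorem str (hq : T_qanti) (hFA : T_FA) (hK1 : T_K1) (hK2 : T_K2) (hKz : T_Kzero)
    (hKe : T_Keig) : T_STR := by
  intro Λ _ A _ _ _ _ H _ _ _ S p _ ρ β k f F hE hk hf hB hL hF ε hε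
  classical
  obtain ⟨φ, hφ, hfa⟩ := hFA Λ A H S p ρ β k f hE hk hf hB hL
  obtain ⟨K, hK0⟩ := hK1 Λ A H S p ρ β k f φ hE hk hf hB hφ hfa
  obtain ⟨hcomm, hclos⟩ := hK2 Λ A H S p ρ β k f φ K hE hk hf hB hφ hfa hK0
  have hK : KProp S p β k f φ K := { hK0 with comm := hcomm, clos := hclos }
  obtain ⟨ha, hb⟩ := hKe Λ A H S p ρ β k f φ K hE hk hf hB hφ hK
  have hc := hKz Λ A H S p β k f φ K hK (fun ψ hψ => ⟨_, ha ψ hψ⟩)
  -- norms
  have hnorm : ∀ ψ ∈ F, ⟪S.ι ψ, S.ι ψ⟫_ℂ = 1 := by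
    intro ψ hψ
    have h1 := (hF.eig ψ hψ).2.1
    have h2 := S.inner_mul ψ 1 ψ
    rw [mul_one, mul_comm (star ψ) ψ, h1] at h2
    rw [h2, inner_self_eq_norm_sq_to_K, S.norm_one]; simp
  -- the closed span
  set M0 : Submodule ℂ H := Submodule.span ℂ (S.ι '' F) with hM0
  set M : Submodule ℂ H := M0.topologicalClosure with hM
  have : CompleteSpace M := (Submodule.isClosed_topologicalClosure M0).completeSpace_coe
  have hMH : M ≤ S.HB ∅ := by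
    refine Submodule.topologicalClosure_minimal _ ?_ (S.isClosed_HB ∅)
    rw [hM0, Submodule.span_le]
    rintro _ ⟨ψ, hψ, rfl⟩
    exact (hF.eig ψ hψ).1
  set u : H := M.starProjection (S.ι f) with hu
  have huM : u ∈ M := Submodule.starProjection_apply_mem M _
  have huH : u ∈ S.HB ∅ := hMH huM
  have horth : ∀ z ∈ M, ⟪z, S.ι f - u⟫_ℂ = 0 := by
    intro z hz
    exact (Submodule.mem_orthogonal M _).1 (Submodule.sub_starProjection_mem_orthogonal (S.ι f)) z hz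
  have hFM : ∀ ψ ∈ F, S.ι ψ ∈ M := fun ψ hψ =>
    Submodule.le_topologicalClosure _ (Submodule.subset_span ⟨ψ, hψ, rfl⟩)
  have hKf : K (S.ι f) = K u := by
    have h1 : K (S.ι f - u) = 0 := by
      refine hc _ (Submodule.sub_mem _ hf huH) fun ψ hψ => ?_
      obtain ⟨ψ', hψ', c, rfl⟩ := hF.full ψ hψ
      rw [map_smul, inner_smul_left, horth _ (hFM ψ' hψ'), mul_zero]
    rw [map_sub, sub_eq_zero] at h1
    exact h1
  set c : A → ℂ := fun ψ => ⟪S.ι ψ, S.ι f⟫_ℂ with hcdef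
  have hcu : ∀ ψ ∈ F, ⟪S.ι ψ, u⟫_ℂ = c ψ := by
    intro ψ hψ
    have := horth _ (hFM ψ hψ)
    rw [inner_sub_right, sub_eq_zero] at this
    exact this.symm
  -- projections on finite sets
  have hFpr : ∀ J : Finset A, S.ι (S.Fpr f J) = ∑ ψ ∈ J, c ψ • S.ι ψ := by
    intro J
    unfold Sys.Fpr
    rw [map_sum]
    exact Finset.sum_congr rfl fun ψ _ => by rw [map_smul]
  have hψF : ∀ J : Finset A, (↑J : Set A) ⊆ F → ∀ ψ ∈ J, ⟪S.ι ψ, S.ι (S.Fpr f J)⟫_ℂ = c ψ := by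
    intro J hJ ψ hψ
    rw [hFpr, inner_sum, Finset.sum_eq_single ψ]
    · rw [inner_smul_right, hnorm ψ (hJ hψ), mul_one]
    · intro ψ' hψ' hne
      rw [inner_smul_right, hF.orth ψ (hJ hψ) ψ' (hJ hψ') (Ne.symm hne), mul_zero]
    · intro h; exact absurd hψ h
  have hbest : ∀ J : Finset A, (↑J : Set A) ⊆ F → ∀ y ∈ Submodule.span ℂ (S.ι '' (↑J : Set A)),
      ‖u - S.ι (S.Fpr f J)‖ ≤ ‖u - y‖ := by
    intro J hJ y hy
    have h1 : ∀ z ∈ Submodule.span ℂ (S.ι '' (↑J : Set A)), ⟪u - S.ι (S.Fpr f J), z⟫_ℂ = 0 := by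
      intro z hz
      induction hz using Submodule.span_induction with
      | mem x hx =>
        obtain ⟨ψ, hψ, rfl⟩ := hx
        rw [← inner_conj_symm, inner_sub_right, hcu ψ (hJ hψ), hψF J hJ ψ hψ, sub_self, map_zero]
      | zero => exact inner_zero_right _
      | add x y _ _ hx hy => rw [inner_add_right, hx, hy, add_zero]
      | smul a x _ hx => rw [inner_smul_right, hx, mul_zero]
    have h2 : S.ι (S.Fpr f J) ∈ Submodule.span ℂ (S.ι '' (↑J : Set A)) := by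
      rw [hFpr]
      exact Submodule.sum_mem _ fun ψ hψ => Submodule.smul_mem _ _ (Submodule.subset_span ⟨ψ, hψ, rfl⟩)
    have h3 := h1 _ (Submodule.sub_mem _ h2 hy)
    have h4 : u - y = (u - S.ι (S.Fpr f J)) + (S.ι (S.Fpr f J) - y) := by abel
    have h5 : ‖u - y‖ * ‖u - y‖ = ‖u - S.ι (S.Fpr f J)‖ * ‖u - S.ι (S.Fpr f J)‖
        + ‖S.ι (S.Fpr f J) - y‖ * ‖S.ι (S.Fpr f J) - y‖ := by
      rw [h4]
      exact norm_add_sq_eq_norm_sq_add_norm_sq_of_inner_eq_zero _ _ h3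
    have h6 := norm_nonneg (S.ι (S.Fpr f J) - y)
    have h7 := norm_nonneg (u - y)
    have h8 := norm_nonneg (u - S.ι (S.Fpr f J))
    nlinarith
  -- the main identity
  have hmain : ∀ J : Finset A, (↑J : Set A) ⊆ F →
      (⟪S.ι f, K (S.ι f)⟫_ℂ).re - ∑ ψ ∈ J, ‖c ψ‖ ^ 4
        = (⟪u - S.ι (S.Fpr f J), K (u - S.ι (S.Fpr f J))⟫_ℂ).re := by
    intro J hJ
    have e0 : ⟪S.ι f, K (S.ι f)⟫_ℂ = ⟪u, K u⟫_ℂ := by
      rw [hKf, ← hK.symm, hKf, hK.symm]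
    have eK : K (S.ι (S.Fpr f J)) = ∑ ψ ∈ J, (c ψ * ((‖c ψ‖ ^ 2 : ℝ) : ℂ)) • S.ι ψ := by
      rw [hFpr, map_sum]
      refine Finset.sum_congr rfl fun ψ hψ => ?_
      rw [map_smul, ha ψ (hF.eig ψ (hJ hψ)), smul_smul]
    have hcc : ∀ ψ, c ψ * ((‖c ψ‖ ^ 2 : ℝ) : ℂ) * conj (c ψ) = ((‖c ψ‖ ^ 4 : ℝ) : ℂ) := by
      intro ψ
      have : c ψ * conj (c ψ) = ((‖c ψ‖ ^ 2 : ℝ) : ℂ) := by
        rw [Complex.mul_conj, Complex.normSq_eq_norm_sq]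
      calc c ψ * ((‖c ψ‖ ^ 2 : ℝ) : ℂ) * conj (c ψ) = (c ψ * conj (c ψ)) * ((‖c ψ‖ ^ 2 : ℝ) : ℂ) := by ring
        _ = ((‖c ψ‖ ^ 4 : ℝ) : ℂ) := by rw [this]; push_cast; ring
    have e1 : ⟪u, K (S.ι (S.Fpr f J))⟫_ℂ = ((∑ ψ ∈ J, ‖c ψ‖ ^ 4 : ℝ) : ℂ) := by
      rw [eK, inner_sum, Complex.ofReal_sum]
      refine Finset.sum_congr rfl fun ψ hψ => ?_
      rw [inner_smul_right, ← inner_conj_symm, hcu ψ (hJ hψ), hcc]
    have e2 : ⟪S.ι (S.Fpr f J), K u⟫_ℂ = ((∑ ψ ∈ J, ‖c ψ‖ ^ 4 : ℝ) : ℂ) := by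
      rw [← hK.symm, ← inner_conj_symm, e1, Complex.conj_ofReal]
    have e3 : ⟪S.ι (S.Fpr f J), K (S.ι (S.Fpr f J))⟫_ℂ = ((∑ ψ ∈ J, ‖c ψ‖ ^ 4 : ℝ) : ℂ) := by
      rw [eK, inner_sum, Complex.ofReal_sum]
      refine Finset.sum_congr rfl fun ψ hψ => ?_
      rw [inner_smul_right, ← inner_conj_symm, hψF J hJ ψ hψ, hcc]
    rw [e0, map_sub, inner_sub_left, inner_sub_right, inner_sub_right, e1, e2, e3]
    simp only [Complex.sub_re, Complex.ofReal_re]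
    ring
  -- choice of the tolerance
  have hK1' : 0 < ‖K‖ + 1 := by positivity
  set ε' : ℝ := min 1 (ε ^ 2 / (2 * (‖K‖ + 1))) with hε'
  have hε'0 : 0 < ε' := by positivity
  have hε'1 : ‖K‖ * ε' ^ 2 < ε ^ 2 := by
    have h1 : ε' ≤ 1 := min_le_left _ _
    have h2 : ε' ≤ ε ^ 2 / (2 * (‖K‖ + 1)) := min_le_right _ _
    have h3 : ε' ^ 2 ≤ ε' := by nlinarith
    rw [le_div_iff₀ (by positivity)] at h2
    have h4 : 0 ≤ ‖K‖ := norm_nonneg _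
    have h5 : 0 < ε ^ 2 := by positivity
    nlinarith
  -- the approximation
  obtain ⟨y, hy, hyd⟩ : ∃ y ∈ M0, ‖u - y‖ < ε' := by
    have h1 : u ∈ closure (M0 : Set H) := by
      rw [← Submodule.topologicalClosure_coe]; exact huM
    obtain ⟨y, hy, hd⟩ := Metric.mem_closure_iff.1 h1 ε' hε'0
    exact ⟨y, hy, by rwa [dist_eq_norm] at hd⟩
  obtain ⟨T, hT, hyT⟩ := Submodule.mem_span_finite_of_mem_span hy
  obtain ⟨J0, hJ0, hJ0T⟩ := Finset.subset_set_image_iff.1 hT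
  refine ⟨J0, hJ0, ?_⟩
  intro J hJ0J hJ
  have hyJ : y ∈ Submodule.span ℂ (S.ι '' (↑J : Set A)) := by
    refine Submodule.span_mono ?_ hyT
    rw [← hJ0T, Finset.coe_image]
    exact Set.image_mono (Finset.coe_subset.2 hJ0J)
  have h1 : ‖u - S.ι (S.Fpr f J)‖ < ε' := (hbest J hJ y hyJ).trans_lt hyd
  have h2 : (⟪S.ι f, K (S.ι f)⟫_ℂ).re - ∑ ψ ∈ J, ‖c ψ‖ ^ 4 < ε ^ 2 := by
    rw [hmain J hJ]
    set w := u - S.ι (S.Fpr f J) with hw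
    have h3 : (⟪w, K w⟫_ℂ).re ≤ ‖w‖ * ‖K w‖ :=
      (Complex.re_le_norm _).trans (norm_inner_le_norm _ _)
    have h4 : ‖K w‖ ≤ ‖K‖ * ‖w‖ := K.le_opNorm w
    have h5 : 0 ≤ ‖w‖ := norm_nonneg _
    have h6 : 0 ≤ ‖K‖ := norm_nonneg _
    have h7 : ‖w‖ * ‖K w‖ ≤ ‖K‖ * ‖w‖ ^ 2 := by nlinarith
    have h8 : ‖w‖ ^ 2 ≤ ε' ^ 2 := by nlinarith
    have h9 : ‖K‖ * ‖w‖ ^ 2 ≤ ‖K‖ * ε' ^ 2 := mul_le_mul_of_nonneg_left h8 h6
    linarith
  have h3 := hb F J hF hJ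
  have h4 := (h3.eventually (gt_mem_nhds h2)).exists
  obtain ⟨l, hl⟩ := h4
  have hgH : S.ι (f - S.Fpr f J) ∈ S.HB ∅ := by
    rw [map_sub, hFpr]
    refine Submodule.sub_mem _ hf (Submodule.sum_mem _ fun ψ hψ => Submodule.smul_mem _ _ ?_)
    exact (hF.eig ψ (hJ hψ)).1
  have hanti := hq Λ A H S p ρ β k (f - S.Fpr f J) hE hk hgH
  refine ⟨φ l, fun m hm => ?_⟩
  have h5 : S.q p β k m (f - S.Fpr f J) ≤ S.q p β k (φ l) (f - S.Fpr f J) := hanti hm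
  have h6 : 0 ≤ S.q p β k (φ l) (f - S.Fpr f J) := norm_nonneg _
  have h7 : S.q p β k (φ l) (f - S.Fpr f J) < ε := by
    by_contra hcon
    rw [not_lt] at hcon
    nlinarith
  exact h5.trans h7.le

end Pool.Agent.H65.BE
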